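import Pool.Agent.helper31.GPR.Spec

/-!
# MP_7a3aac: the second part of the main lemma
-/

set_option autoImplicit false

namespace Pool.Agent.helper65.QG

open Pool.Agent.helper25.QST Pool.Agent.GPR

theorem mlb : MLB_stmt := by
  intro V _ _ S J hJ y h hy hyh
  set T : Submodule (ZMod 2) V := Submodule.span (ZMod 2) {J y h, h, y} with hT
  have zz : ∀ v : V, v + v = 0 := fun v => ZModModule.add_self v
  have mJ : J y h ∈ T := Submodule.subset_span (by simp)
  have mh : h ∈ T := Submodule.subset_span (by simp)
  have my : y ∈ T := Submodule.subset_span (by simp)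
  have h0 : J y y = 0 := hJ.self y hy
  have h1 : J (y + h) (y + h) = 0 := hJ.self _ hyh
  have h2 : J (y + h) y = J (y + h) h := by
    rw [map_add] at h1
    calc J (y + h) y = J (y + h) y + (J (y + h) h + J (y + h) h) := by rw [zz, add_zero]
      _ = (J (y + h) y + J (y + h) h) + J (y + h) h := by abel
      _ = J (y + h) h := by rw [h1, zero_add]
  have h3 : J y h + J (y + h) h ∈ Submodule.span (ZMod 2) {y, y + h} := by
    have := hJ.sym y hy (y + h) hyh
    rw [map_add (J y), h0, zero_add, h2] at this
    exact this
  have hsub : Submodule.span (ZMod 2) {y, y + h} ≤ T := by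
    rw [Submodule.span_le]
    intro z hz
    simp only [Set.mem_insert_iff, Set.mem_singleton_iff] at hz
    rcases hz with rfl | rfl
    · exact my
    · exact T.add_mem my mh
  have mk : J (y + h) h ∈ T := by
    have := T.add_mem (hsub h3) mJ
    have e : J y h + J (y + h) h + J y h = J (y + h) h + (J y h + J y h) := by abel
    rw [e, zz, add_zero] at this
    exact this
  have m1 : J y (J y h) ∈ T := by
    have h4 : J y (J y h) + J y h + h ∈ T :=
      (Submodule.span_le.2 (by simpa using my) : Submodule.span (ZMod 2) {y} ≤ T) (hJ.quad y hy h)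
    have := T.add_mem h4 (T.add_mem mJ mh)
    have e : J y (J y h) + J y h + h + (J y h + h) = J y (J y h) + ((J y h + J y h) + (h + h)) := by abel
    rw [e, zz, zz, add_zero, add_zero] at this
    exact this
  have m2 : J (y + h) (J (y + h) h) ∈ T := by
    have h4 : J (y + h) (J (y + h) h) + J (y + h) h + h ∈ T :=
      (Submodule.span_le.2 (by simpa using T.add_mem my mh) : Submodule.span (ZMod 2) {y + h} ≤ T) (hJ.quad _ hyh h)
    have := T.add_mem h4 (T.add_mem mk mh)
    have e : J (y + h) (J (y + h) h) + J (y + h) h + h + (J (y + h) h + h) =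
        J (y + h) (J (y + h) h) + ((J (y + h) h + J (y + h) h) + (h + h)) := by abel
    rw [e, zz, zz, add_zero, add_zero] at this
    exact this
  have m3 : ∀ u ∈ Submodule.span (ZMod 2) {y, y + h}, J (y + h) u ∈ T := by
    intro u hu
    rw [Submodule.mem_span_pair] at hu
    obtain ⟨a, b, rfl⟩ := hu
    rw [map_add, map_smul, map_smul, h1, h2, smul_zero, add_zero]
    exact T.smul_mem _ mk
  have m4 : J (y + h) (J y h) ∈ T := by
    have := T.add_mem (m3 _ h3) m2
    rw [map_add] at this
    have e : J (y + h) (J y h) + J (y + h) (J (y + h) h) + J (y + h) (J (y + h) h) =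
        J (y + h) (J y h) + (J (y + h) (J (y + h) h) + J (y + h) (J (y + h) h)) := by abel
    rw [e, zz, add_zero] at this
    exact this
  rw [LinearMap.add_apply]
  exact T.add_mem m1 m4

end Pool.Agent.helper65.QG
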