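import Pool.Agent.helper25.QST.Basic

/-!
# Geometric points of `S_2[2,3,n]`: the linear maps at the geometric points
-/

set_option autoImplicit false

namespace Pool.Agent.helper65.QG

open Submodule Module Pool.Agent.helper25.QST

variable {V : Type} [AddCommGroup V] [Module (ZMod 2) V]

theorem zz2 (u : V) : (2 : ℤ) • u = 0 := by
  rw [two_smul, dbl]

theorem zz3 (u : V) : (3 : ℤ) • u = u := by
  have h : (3 : ℤ) = 2 + 1 := rfl
  rw [h, add_smul, zz2, zero_add, one_smul]

theorem zz4 (u : V) : (4 : ℤ) • u = 0 := by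
  have h : (4 : ℤ) = 2 * 2 := rfl
  rw [h, mul_smul, zz2]

theorem eq_of_add {u v : V} (h : u + v = 0) : u = v := by
  have h1 : u + v + v = v := by rw [h, zero_add]
  rwa [add_assoc, dbl, add_zero] at h1

theorem mem_of {P : Submodule (ZMod 2) V} {u v : V} (hv : v ∈ P) (h : u + v = 0) : u ∈ P := by
  rw [eq_of_add h]
  exact hv

theorem mem_of_eq {P : Submodule (ZMod 2) V} {u v : V} (hv : v ∈ P) (h : u = v) : u ∈ P := by
  rw [h]
  exact hv

/-- the linear map at a geometric point -/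
structure Lift (𝓑 : Set (Submodule (ZMod 2) V)) (a : V) (T : V →ₗ[ZMod 2] V) : Prop where
  ne : a ≠ 0
  self : T a = 0
  sq : ∀ x, T (T x) + T x + x ∈ span (ZMod 2) {a}
  blk : ∀ B ∈ 𝓑, a ∈ B → ∀ x ∈ B, T x ∈ B

variable {𝓑 : Set (Submodule (ZMod 2) V)}

theorem exists_lift {a : V} (ha : a ≠ 0) (h : Geometric 𝓑 a) : ∃ T : V →ₗ[ZMod 2] V, Lift 𝓑 a T := by
  obtain ⟨J, h1, h2, h3⟩ := lift_geo h
  rcases mem_sp.1 h1 with h0 | h0
  · exact ⟨J, ha, h0, h2, h3⟩
  obtain ⟨φ, hφ⟩ : ∃ φ : Module.Dual (ZMod 2) V, φ a ≠ 0 := by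
    by_contra hc
    push Not at hc
    exact ha ((Module.forall_dual_apply_eq_zero_iff (ZMod 2) a).1 hc)
  have hφ1 : φ a = 1 := z2_ne hφ
  have ham : ∀ c : ZMod 2, c • a ∈ span (ZMod 2) {a} := fun c =>
    Submodule.smul_mem _ c (mem_span_singleton_self a)
  refine ⟨J + φ.smulRight a, ha, ?_, fun x => ?_, fun B hB haB x hx => ?_⟩
  · rw [LinearMap.add_apply, LinearMap.smulRight_apply, h0, hφ1, one_smul, dbl]
  · simp only [LinearMap.add_apply, LinearMap.smulRight_apply, map_add, map_smul, h0]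
    have e : J (J x) + φ (J x) • a + φ x • (a + φ a • a) + (J x + φ x • a) + x =
        (J (J x) + J x + x) + (φ (J x) • a + φ x • (a + φ a • a) + φ x • a) := by abel
    rw [e]
    exact add_mem (h2 x) (add_mem (add_mem (ham _) (Submodule.smul_mem _ _ (add_mem (mem_span_singleton_self _) (ham _))))
      (ham _))
  · rw [LinearMap.add_apply, LinearMap.smulRight_apply]
    exact B.add_mem (h3 B hB haB x hx) (B.smul_mem _ haB)

/-- a nonzero vector is not in the span of a different one -/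
theorem nin {a b : V} (hb : b ≠ 0) (hab : a ≠ b) : b ∉ span (ZMod 2) {a} := by
  intro h
  rcases mem_sp.1 h with h | h
  · exact hb h
  · exact hab h.symm

theorem mem_sp2 {a b x : V} : x ∈ span (ZMod 2) {a, b} ↔ x = 0 ∨ x = a ∨ x = b ∨ x = a + b := by
  rw [Submodule.mem_span_pair]
  constructor
  · rintro ⟨c, d, rfl⟩
    rcases z2 c with rfl | rfl <;> rcases z2 d with rfl | rfl
    · left; simp
    · right; right; left; simp
    · right; left; simp
    · right; right; right; simp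
  · rintro (rfl | rfl | rfl | rfl)
    · exact ⟨0, 0, by simp⟩
    · exact ⟨1, 0, by simp⟩
    · exact ⟨0, 1, by simp⟩
    · exact ⟨1, 1, by simp⟩

/-- `T x` is not in the line through `a` and `x` -/
theorem Lift.nline {a : V} {T : V →ₗ[ZMod 2] V} (h : Lift 𝓑 a T) {x : V} (hx : x ∉ span (ZMod 2) {a}) :
    T x ∉ span (ZMod 2) {a, x} := by
  obtain ⟨n1, n2⟩ := no_eig (by rw [h.self]; exact zero_mem _) h.sq hx
  intro hm
  rcases mem_sp2.1 hm with e | e | e | e
  · exact n1 (e ▸ zero_mem _)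
  · exact n1 (e ▸ mem_span_singleton_self _)
  · apply n2
    rw [e, dbl]
    exact zero_mem _
  · apply n2
    rw [e, add_assoc, dbl, add_zero]
    exact mem_span_singleton_self _

/-- the block through two different points is unique -/
theorem blk_unique (h : IsQSteiner 𝓑) {B C : Submodule (ZMod 2) V} (hB : B ∈ 𝓑) (hC : C ∈ 𝓑) {a b : V}
    (ha : a ≠ 0) (hb : b ≠ 0) (hab : a ≠ b) (haB : a ∈ B) (hbB : b ∈ B) (haC : a ∈ C) (hbC : b ∈ C) : B = C := by
  have h1 : span (ZMod 2) {a, b} ≤ B := by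
    rw [span_le]
    rintro x (rfl | rfl)
    · exact haB
    · exact hbB
  have h2 : span (ZMod 2) {a, b} ≤ C := by
    rw [span_le]
    rintro x (rfl | rfl)
    · exact haC
    · exact hbC
  exact (h.uniq _ (finrank2 ha hb hab)).unique ⟨hB, h1⟩ ⟨hC, h2⟩

/-- a block has eight elements -/
theorem blk_card (h : IsQSteiner 𝓑) {B : Submodule (ZMod 2) V} (hB : B ∈ 𝓑) : Nat.card B = 8 := by
  have : Module.Finite (ZMod 2) B := Module.finite_of_finrank_eq_succ (h.dim B hB)
  rw [Module.natCard_eq_pow_finrank (K := ZMod 2), h.dim B hB, Nat.card_zmod]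
  rfl

/-- two elements of a block outside a line of the block have their sum in the line -/
theorem sum_in_line (h : IsQSteiner 𝓑) {B : Submodule (ZMod 2) V} (hB : B ∈ 𝓑) {a b u v : V} (ha : a ≠ 0)
    (hb : b ≠ 0) (hab : a ≠ b) (haB : a ∈ B) (hbB : b ∈ B) (huB : u ∈ B) (hvB : v ∈ B)
    (hu : u ∉ span (ZMod 2) {a, b}) (hv : v ∉ span (ZMod 2) {a, b}) : u + v ∈ span (ZMod 2) {a, b} := by
  have hfin : Module.Finite (ZMod 2) B := Module.finite_of_finrank_eq_succ (h.dim B hB)
  set L : Submodule (ZMod 2) V := span (ZMod 2) {a, b} with hL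
  have hLB : L ≤ B := by
    rw [hL, span_le]
    rintro x (rfl | rfl)
    · exact haB
    · exact hbB
  -- the quotient of `B` by `L` has dimension one
  let L' : Submodule (ZMod 2) B := L.submoduleOf B
  have hL' : finrank (ZMod 2) L' = 2 := by
    have e1 : finrank (ZMod 2) L' = finrank (ZMod 2) L :=
      (Submodule.submoduleOfEquivOfLe hLB).finrank_eq
    rw [e1]
    exact finrank2 ha hb hab
  have hq : finrank (ZMod 2) (B ⧸ L') = 1 := by
    have e2 := Submodule.finrank_quotient_add_finrank L'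
    rw [hL', h.dim B hB] at e2
    omega
  have hmem : ∀ x : B, (Submodule.Quotient.mk x : B ⧸ L') = 0 ↔ (x : V) ∈ L := by
    intro x
    rw [Submodule.Quotient.mk_eq_zero]
    rfl
  have hu' : (Submodule.Quotient.mk ⟨u, huB⟩ : B ⧸ L') ≠ 0 := fun e => hu ((hmem _).1 e)
  have hv' : (Submodule.Quotient.mk ⟨v, hvB⟩ : B ⧸ L') ≠ 0 := fun e => hv ((hmem _).1 e)
  obtain ⟨c, hc⟩ := (finrank_eq_one_iff_of_nonzero' _ hu').1 hq (Submodule.Quotient.mk ⟨v, hvB⟩)
  have hc1 : c = 1 := by
    rcases z2 c with e | e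
    · rw [e, zero_smul] at hc
      exact absurd hc.symm hv'
    · exact e
  rw [hc1, one_smul] at hc
  have h5 : (Submodule.Quotient.mk (⟨u, huB⟩ + ⟨v, hvB⟩ : B) : B ⧸ L') = 0 := by
    rw [Submodule.Quotient.mk_add, hc, ← Submodule.Quotient.mk_add, dbl]
    rfl
  exact (hmem _).1 h5

/-- symmetry: `T_a b` and `T_b a` agree modulo `a`, `b` -/
theorem symm_T (h : IsQSteiner 𝓑) {a b : V} {S T : V →ₗ[ZMod 2] V} (hS : Lift 𝓑 a S) (hT : Lift 𝓑 b T)
    (hST : a = b → S = T) : S b + T a ∈ span (ZMod 2) {a, b} := by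
  by_cases hab : a = b
  · have e := hST hab
    subst e
    subst hab
    rw [dbl]
    exact zero_mem _
  obtain ⟨B, hB, haB, hbB⟩ := Pool.Agent.helper25.QST.blk h hS.ne hT.ne hab
  refine sum_in_line h hB hS.ne hT.ne hab haB hbB (hS.blk B hB haB b hbB) (hT.blk B hB hbB a haB)
    (hS.nline (nin hT.ne hab)) ?_
  rw [Set.pair_comm]
  exact hT.nline (nin hS.ne (Ne.symm hab))

end Pool.Agent.helper65.QG
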