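import Pool.Agent.helper65.QG.Sub2

/-!
# Geometric points of `S_2[2,3,n]` are exponentially rare: assembly
-/

set_option autoImplicit false

namespace Pool.Agent.helper65.QG

open Submodule Module Pool.Agent.helper25.QST Pool.Agent.GPR

/-! ## Numbers -/

theorem kk3 (d c : ℕ) (h : c ≤ d) : KK d c * 2 ^ (d - c) ≤ 3 ^ d := by
  have h1 : (3 : ℕ) ^ d = ∑ i ∈ Finset.range (d + 1), d.choose i * 2 ^ (d - i) := by
    have h2 := add_pow (1 : ℕ) 2 d
    have h3 : (1 + 2 : ℕ) = 3 := rfl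
    rw [h3] at h2
    rw [h2]
    refine Finset.sum_congr rfl fun i _ => ?_
    rw [one_pow, one_mul, mul_comm]
    rfl
  rw [h1]
  unfold KK
  rw [Finset.sum_mul]
  calc ∑ i ∈ Finset.range (c + 1), d.choose i * 2 ^ (d - c)
      ≤ ∑ i ∈ Finset.range (c + 1), d.choose i * 2 ^ (d - i) := by
        refine Finset.sum_le_sum fun i hi => Nat.mul_le_mul_left _ (Nat.pow_le_pow_right (by norm_num) ?_)
        have := Finset.mem_range.1 hi
        omega
    _ ≤ ∑ i ∈ Finset.range (d + 1), d.choose i * 2 ^ (d - i) :=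
        Finset.sum_le_sum_of_subset (Finset.range_mono (by omega))

theorem num1 : ∀ m : ℕ, 2 ≤ m → 3 ^ ((5 * m + 1) / 2) * 2 ^ m * 32 ≤ 31 * 4 ^ ((5 * m + 1) / 2)
  | 0, h => by omega
  | 1, h => by omega
  | 2, _ => by norm_num
  | 3, _ => by norm_num
  | m + 4, _ => by
    have ih := num1 (m + 2) (by omega)
    have e1 : (5 * (m + 4) + 1) / 2 = (5 * (m + 2) + 1) / 2 + 5 := by omega
    rw [e1]
    generalize (5 * (m + 2) + 1) / 2 = d at ih
    have e2 : 3 ^ (d + 5) * 2 ^ (m + 4) * 32 = 972 * (3 ^ d * 2 ^ (m + 2) * 32) := by ring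
    have e3 : 31 * 4 ^ (d + 5) = 1024 * (31 * 4 ^ d) := by ring
    rw [e2, e3]
    calc 972 * (3 ^ d * 2 ^ (m + 2) * 32) ≤ 972 * (31 * 4 ^ d) := Nat.mul_le_mul_left _ ih
      _ ≤ 1024 * (31 * 4 ^ d) := Nat.mul_le_mul_right _ (by norm_num)

theorem num2 (t : ℕ) : 2 * t ≤ 2 ^ t := by
  cases t with
  | zero => norm_num
  | succ t =>
    have h : t < 2 ^ t := Nat.lt_two_pow_self
    rw [pow_succ]
    omega

/-! ## The sets of differences -/

/-- the number of the elements of `R_g` -/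
theorem rbound (hML : ML_stmt) {V : Type} [AddCommGroup V] [Module (ZMod 2) V] [Finite V]
    {𝓑 : Set (Submodule (ZMod 2) V)} (h : IsQSteiner 𝓑) (n : ℕ) (hn : finrank (ZMod 2) V = n) {S : Set V}
    {J : V → V →ₗ[ZMod 2] V} (hT : ∀ x ∈ S, Lift 𝓑 x (J x)) {V1 : Submodule (ZMod 2) V} (hA : Amb S J V1) {g : V}
    (hg : g ≠ 0) : (Rh S J V1 g).ncard ≤ 3 * 2 ^ 9 + 2 ^ ((n + 3) / 2) := by
  classical
  rcases Set.eq_empty_or_nonempty (Rh S J V1 g) with he | ⟨x, hx, hxg, -⟩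
  · rw [he, Set.ncard_empty]
    exact Nat.zero_le _
  have hab : x ≠ x + g := fun e => hg (by
    have e2 : x + g = x + 0 := by rw [add_zero]; exact e.symm
    exact add_left_cancel e2)
  have hX := hT x hx
  have hY := hT (x + g) hxg
  obtain ⟨B, hB, haB, hbB⟩ := Pool.Agent.helper25.QST.blk h hX.ne hY.ne hab
  have hgB : g ∈ B := by
    have e : g = x + (x + g) := by rw [← add_assoc, dbl, zero_add]
    rw [e]
    exact B.add_mem haB hbB
  have hDB : ∀ v ∈ B, (J x + J (x + g)) v ∈ B := fun v hv =>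
    B.add_mem (hX.blk B hB haB v hv) (hY.blk B hB hbB v hv)
  have hW : Wh x g (J x + J (x + g)) ≤ B := by
    unfold Wh
    rw [span_le]
    rintro v (rfl | rfl | rfl | rfl)
    · exact haB
    · exact hgB
    · exact hDB _ haB
    · exact hDB _ hgB
  let P : ZMod 2 → ZMod 2 → Submodule (ZMod 2) V := fun e e' =>
    (B.comap (J x + J (x + g) + e • LinearMap.id)).comap (J x + J (x + g) + e' • LinearMap.id)
  let Q : Submodule (ZMod 2) V :=
    B.comap ((J x + J (x + g)).comp (J x + J (x + g)) + (J x + J (x + g)) + LinearMap.id)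
  have hP : ∀ e e', (P e e' : Set V).ncard ≤ 2 ^ 9 := by
    intro e e'
    rw [card_sub]
    exact Nat.pow_le_pow_right (by norm_num) (small_prod h hX hY hab hB haB hbB e e')
  have hQ : (Q : Set V).ncard ≤ 2 ^ ((n + 3) / 2) := by
    rw [card_sub]
    refine Nat.pow_le_pow_right (by norm_num) ?_
    have h1 := small_quad h hX hY hB haB hbB
    rw [hn] at h1
    have h2 : 2 * finrank (ZMod 2) Q ≤ n + 3 := h1
    omega
  have hcov : Rh S J V1 g ⊆ ((P 0 0 : Set V) ∪ (P 0 1 : Set V)) ∪ ((P 1 1 : Set V) ∪ (Q : Set V)) := by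
    intro y hy
    have h1 := hML V S J V1 hA x g y hx hxg hy
    obtain ⟨u, hu, w, hw, huw⟩ := Submodule.mem_sup.1 h1
    obtain ⟨α, β, hαβ⟩ := Submodule.mem_span_pair.1 hu
    set D := J x + J (x + g) with hD
    have h2 : D (D y) + (α • D y + β • y) ∈ B := by
      rw [hαβ]
      refine mem_of (hW hw) ?_
      rw [← huw]
      abel_nf
      simp only [zz2, add_zero]
    rcases z2 α with rfl | rfl <;> rcases z2 β with rfl | rfl
    · left; left
      show (D + (0 : ZMod 2) • LinearMap.id : V →ₗ[ZMod 2] V) ((D + (0 : ZMod 2) • LinearMap.id : V →ₗ[ZMod 2] V) y) ∈ B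
      simp only [zero_smul, add_zero, LinearMap.zero_apply] at h2 ⊢
      exact h2
    · right; left
      show (D + (1 : ZMod 2) • LinearMap.id : V →ₗ[ZMod 2] V) ((D + (1 : ZMod 2) • LinearMap.id : V →ₗ[ZMod 2] V) y) ∈ B
      simp only [zero_smul, one_smul, zero_add] at h2
      simp only [LinearMap.add_apply, one_smul, LinearMap.id_apply, map_add]
      refine mem_of h2 ?_
      abel_nf
      simp only [zz2, add_zero]
    · left; right
      show (D + (0 : ZMod 2) • LinearMap.id : V →ₗ[ZMod 2] V) ((D + (1 : ZMod 2) • LinearMap.id : V →ₗ[ZMod 2] V) y) ∈ B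
      simp only [zero_smul, one_smul, add_zero] at h2
      simp only [LinearMap.add_apply, one_smul, zero_smul, add_zero, LinearMap.id_apply, map_add]
      exact h2
    · right; right
      show (D.comp D + D + LinearMap.id : V →ₗ[ZMod 2] V) y ∈ B
      simp only [one_smul] at h2
      simp only [LinearMap.add_apply, LinearMap.comp_apply, LinearMap.id_apply]
      rw [add_assoc]
      exact h2
  calc (Rh S J V1 g).ncard
      ≤ (((P 0 0 : Set V) ∪ (P 0 1 : Set V)) ∪ ((P 1 1 : Set V) ∪ (Q : Set V))).ncard :=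
        Set.ncard_le_ncard hcov (Set.toFinite _)
    _ ≤ ((P 0 0 : Set V) ∪ (P 0 1 : Set V)).ncard + ((P 1 1 : Set V) ∪ (Q : Set V)).ncard := Set.ncard_union_le _ _
    _ ≤ ((P 0 0 : Set V).ncard + (P 0 1 : Set V).ncard) + ((P 1 1 : Set V).ncard + (Q : Set V).ncard) :=
        Nat.add_le_add (Set.ncard_union_le _ _) (Set.ncard_union_le _ _)
    _ ≤ (2 ^ 9 + 2 ^ 9) + (2 ^ 9 + 2 ^ ((n + 3) / 2)) :=
        Nat.add_le_add (Nat.add_le_add (hP _ _) (hP _ _)) (Nat.add_le_add (hP _ _) hQ)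
    _ = 3 * 2 ^ 9 + 2 ^ ((n + 3) / 2) := by ring

/-! ## The theorem -/

theorem exists_J {V : Type} [AddCommGroup V] [Module (ZMod 2) V] [Finite V]
    {𝓑 : Set (Submodule (ZMod 2) V)} (h : IsQSteiner 𝓑) :
    ∃ J : V → V →ₗ[ZMod 2] V, (∀ x ∈ {a : V | a ≠ 0 ∧ Geometric 𝓑 a}, Lift 𝓑 x (J x)) ∧
      Lc {a : V | a ≠ 0 ∧ Geometric 𝓑 a} J := by
  classical
  have hex : ∀ a : V, ∃ T : V →ₗ[ZMod 2] V, (a ≠ 0 ∧ Geometric 𝓑 a) → Lift 𝓑 a T := by
    intro a
    by_cases ha : a ≠ 0 ∧ Geometric 𝓑 a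
    · obtain ⟨T, hT⟩ := exists_lift ha.1 ha.2
      exact ⟨T, fun _ => hT⟩
    · exact ⟨0, fun h => absurd h ha⟩
  choose J hJ using hex
  refine ⟨J, hJ, ?_⟩
  refine ⟨fun h0 => h0.1 rfl, fun x hx => (hJ x hx).self, fun x hx v => (hJ x hx).sq v,
    fun x hx y hy => symm_T h (hJ x hx) (hJ y hy) (fun e => by rw [e]), fun x hx y hy hxy e => ?_⟩
  obtain ⟨B, hB, hxB, hyB⟩ := Pool.Agent.helper25.QST.blk h hx.1 hy.1 hxy
  have h1 : LinearMap.ker (J x + J y + e • LinearMap.id) ≤ B := by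
    intro w hw
    refine small_ker h (hJ x hx) (hJ y hy) hxy hB hxB hyB e (w := w) ?_
    have h2 : J x w + J y w + e • w = 0 := hw
    rw [h2]
    exact zero_mem _
  have h3 := Submodule.finrank_mono h1
  rw [h.dim B hB] at h3
  exact h3

/-- if `n ≥ 7 k + 13` then there are fewer than `2 ^ (n - k)` geometric points -/
theorem few (hFOU : FOU_stmt) (hML : ML_stmt) (hSS : SS_stmt) (hTSP : TSP_stmt) {V : Type} [AddCommGroup V]
    [Module (ZMod 2) V] [Finite V] {𝓑 : Set (Submodule (ZMod 2) V)} (h : IsQSteiner 𝓑) (n k : ℕ)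
    (hn : finrank (ZMod 2) V = n) (hnk : 7 * k + 13 ≤ n) :
    {a : V | a ≠ 0 ∧ Geometric 𝓑 a}.ncard < 2 ^ (n - k) := by
  classical
  rcases Nat.eq_zero_or_pos k with hk0 | hk
  · subst hk0
    have h1 : {a : V | a ≠ 0 ∧ Geometric 𝓑 a} ⊆ ((⊤ : Submodule (ZMod 2) V) : Set V) \ {0} := fun x hx => ⟨trivial, hx.1⟩
    have h2 := Set.ncard_le_ncard h1 (Set.toFinite _)
    rw [Set.ncard_sdiff_singleton_of_mem (Submodule.zero_mem _), card_sub, finrank_top, hn] at h2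
    have h3 : 0 < 2 ^ n := by positivity
    rw [Nat.sub_zero]
    omega
  by_contra hc
  rw [not_lt] at hc
  obtain ⟨J, hJ, hLc⟩ := exists_J h
  set S : Set V := {a : V | a ≠ 0 ∧ Geometric 𝓑 a} with hS
  -- the essential span
  have hbig : n * 2 ^ (k + 3) < 2 ^ (n - k - 1) := by
    have e1 : 2 ^ (n - k - 1) = 2 ^ (n - 2 * k - 4) * 2 ^ (k + 3) := by
      rw [← pow_add]
      congr 1
      omega
    rw [e1]
    refine Nat.mul_lt_mul_of_pos_right ?_ (by positivity)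
    have e2 := num2 (n - 2 * k - 4)
    omega
  obtain ⟨V1, hA, hcard, hdim⟩ := sub2 hFOU n k S J hn hLc hc hbig (by omega)
  have hV1 : finrank (ZMod 2) V1 ≤ n := by
    rw [← hn]
    exact Submodule.finrank_le V1
  set F : Set V := S ∩ (V1 : Set V) with hF
  have hF32 : 31 * 2 ^ (n - k) ≤ 32 * F.ncard := by
    have e1 : 32 * (k * 2 ^ (k + 3)) ≤ 2 ^ (n - k) := by
      have e2 : 2 ^ (n - k) = 2 ^ (n - 2 * k - 8) * (2 ^ (k + 3) * 32) := by
        have e3 : (32 : ℕ) = 2 ^ 5 := by norm_num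
        rw [e3, ← pow_add, ← pow_add]
        congr 1
        omega
      have e4 : k ≤ 2 ^ (n - 2 * k - 8) := by
        have e5 := num2 (n - 2 * k - 8)
        omega
      calc 32 * (k * 2 ^ (k + 3)) = k * (2 ^ (k + 3) * 32) := by ring
        _ ≤ 2 ^ (n - 2 * k - 8) * (2 ^ (k + 3) * 32) := Nat.mul_le_mul_right _ e4
        _ = 2 ^ (n - k) := e2.symm
    omega
  have hpos : 0 < 2 ^ (n - k) := by positivity
  have hFne : F.Nonempty := by
    rw [Set.nonempty_iff_ne_empty]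
    intro e
    rw [e, Set.ncard_empty] at hF32
    omega
  -- the small subspace
  set d : ℕ := (5 * (k + 1) + 1) / 2 with hd
  have hd1 : 2 * d ≤ 5 * k + 6 := by omega
  have hd2 : 5 * k + 5 ≤ 2 * d := by omega
  set c : ℕ := finrank (ZMod 2) (V ⧸ V1) with hcdef
  have hc1 : c + finrank (ZMod 2) V1 = n := by
    rw [← hn]
    exact Submodule.finrank_quotient_add_finrank V1
  obtain ⟨x₀, hx₀⟩ := hFne
  obtain ⟨T, hTV, hTd, -⟩ := hTSP V V1 x₀ d hx₀.1.1 (by omega)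
  have hKK : KK d c * Nat.card V1 ≤ F.ncard * 2 ^ (d - 1) := by
    have e1 : Nat.card V1 = 2 ^ (d - c) * 2 ^ (n - d) := by
      rw [card_pow, ← pow_add]
      congr 1
      omega
    have e2 := kk3 d c (by omega)
    have e3 : KK d c * Nat.card V1 ≤ 3 ^ d * 2 ^ (n - d) := by
      rw [e1, ← mul_assoc]
      exact Nat.mul_le_mul_right _ e2
    have e4 := num1 (k + 1) (by omega)
    rw [← hd] at e4
    have e5 : 3 ^ d * 2 ^ (k + 1) * 32 * 2 ^ (n - d - k - 1) = 32 * (3 ^ d * 2 ^ (n - d)) := by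
      have e6 : 2 ^ (n - d) = 2 ^ (k + 1) * 2 ^ (n - d - k - 1) := by
        rw [← pow_add]
        congr 1
        omega
      rw [e6]
      ring
    have e7 : 31 * 4 ^ d * 2 ^ (n - d - k - 1) = 31 * 2 ^ (n - k) * 2 ^ (d - 1) := by
      have e8 : (4 : ℕ) ^ d = 2 ^ (2 * d) := by
        rw [pow_mul]
        norm_num
      rw [e8, mul_assoc, mul_assoc, ← pow_add, ← pow_add]
      congr 2
      omega
    have e9 : 32 * (3 ^ d * 2 ^ (n - d)) ≤ 32 * (F.ncard * 2 ^ (d - 1)) := by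
      calc 32 * (3 ^ d * 2 ^ (n - d)) = 3 ^ d * 2 ^ (k + 1) * 32 * 2 ^ (n - d - k - 1) := e5.symm
        _ ≤ 31 * 4 ^ d * 2 ^ (n - d - k - 1) := Nat.mul_le_mul_right _ e4
        _ = 31 * 2 ^ (n - k) * 2 ^ (d - 1) := e7
        _ ≤ 32 * F.ncard * 2 ^ (d - 1) := Nat.mul_le_mul_right _ hF32
        _ = 32 * (F.ncard * 2 ^ (d - 1)) := by ring
    omega
  obtain ⟨g, hgT, hg0, hgc⟩ := hSS V V1 T d c F (fun z => V1.mkQ.comp (J z)) hTd (by omega) rfl hTV
    (fun z hz => hz.2) (fun z hz => by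
      rw [LinearMap.comp_apply, (hJ z hz.1).self, map_zero]) hKK ⟨x₀, hx₀⟩
  have hsub : {z | z ∈ F ∧ z + g ∈ F ∧ (V1.mkQ.comp (J z)) g = 0} ⊆ Rh F J V1 g := by
    rintro z ⟨h1, h2, h3⟩
    refine ⟨h1, h2, ?_⟩
    rwa [LinearMap.comp_apply, Submodule.mkQ_apply, Submodule.Quotient.mk_eq_zero] at h3
  have hR := rbound hML h n hn (S := F) (J := J) (fun x hx => hJ x hx.1) hA hg0
  have hR2 : F.ncard ≤ 2 ^ (d + 1) * (3 * 2 ^ 9 + 2 ^ ((n + 3) / 2)) :=
    hgc.trans (Nat.mul_le_mul_left _ ((Set.ncard_le_ncard hsub (Set.toFinite _)).trans hR))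
  -- the numbers
  have hs : 11 ≤ (n + 3) / 2 := by omega
  have h11 : 2048 ≤ 2 ^ ((n + 3) / 2) := by
    calc 2048 = 2 ^ 11 := by norm_num
      _ ≤ 2 ^ ((n + 3) / 2) := Nat.pow_le_pow_right (by norm_num) hs
  have h12 : 2 ^ (d + 1) * (2 * 2 ^ ((n + 3) / 2)) ≤ 2 ^ (n - k) := by
    have e1 : 2 ^ (d + 1) * (2 * 2 ^ ((n + 3) / 2)) = 2 ^ (d + 1 + (1 + (n + 3) / 2)) := by
      rw [pow_add 2 (d + 1), pow_add 2 1, pow_one]
    rw [e1]
    exact Nat.pow_le_pow_right (by norm_num) (by omega)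
  have h13 : 0 < 2 ^ (d + 1) := by positivity
  generalize 2 ^ (d + 1) = A at hR2 h12 h13
  generalize 2 ^ ((n + 3) / 2) = Z at hR2 h12 h11
  generalize 2 ^ (n - k) = N at hF32 h12
  generalize F.ncard = f at hF32 hR2
  have h14 : 31 * (A * (2 * Z)) ≤ 32 * (A * (3 * 2 ^ 9 + Z)) := by omega
  have h15 : A * (31 * (2 * Z)) ≤ A * (32 * (3 * 2 ^ 9 + Z)) := by
    calc A * (31 * (2 * Z)) = 31 * (A * (2 * Z)) := by ring
      _ ≤ 32 * (A * (3 * 2 ^ 9 + Z)) := h14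
      _ = A * (32 * (3 * 2 ^ 9 + Z)) := by ring
  have h16 := Nat.le_of_mul_le_mul_left h15 h13
  omega

/-- the seventh power form -/
theorem few7 (hFOU : FOU_stmt) (hML : ML_stmt) (hSS : SS_stmt) (hTSP : TSP_stmt) {V : Type} [AddCommGroup V]
    [Module (ZMod 2) V] [Finite V] {𝓑 : Set (Submodule (ZMod 2) V)} (h : IsQSteiner 𝓑) (n : ℕ)
    (hn : finrank (ZMod 2) V = n) :
    {a : V | a ≠ 0 ∧ Geometric 𝓑 a}.ncard ^ 7 < 2 ^ (6 * n + 19) := by
  by_cases h13 : 13 ≤ n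
  · have h1 := few hFOU hML hSS hTSP h n ((n - 13) / 7) hn (by omega)
    calc {a : V | a ≠ 0 ∧ Geometric 𝓑 a}.ncard ^ 7 < (2 ^ (n - (n - 13) / 7)) ^ 7 :=
          Nat.pow_lt_pow_left h1 (by norm_num)
      _ = 2 ^ ((n - (n - 13) / 7) * 7) := by rw [pow_mul]
      _ ≤ 2 ^ (6 * n + 19) := Nat.pow_le_pow_right (by norm_num) (by omega)
  · have h1 : {a : V | a ≠ 0 ∧ Geometric 𝓑 a} ⊆ ((⊤ : Submodule (ZMod 2) V) : Set V) \ {0} := fun x hx => ⟨trivial, hx.1⟩
    have h2 := Set.ncard_le_ncard h1 (Set.toFinite _)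
    rw [Set.ncard_sdiff_singleton_of_mem (Submodule.zero_mem _), card_sub, finrank_top, hn] at h2
    have h3 : 0 < 2 ^ n := by positivity
    have h4 : {a : V | a ≠ 0 ∧ Geometric 𝓑 a}.ncard < 2 ^ n := by omega
    calc {a : V | a ≠ 0 ∧ Geometric 𝓑 a}.ncard ^ 7 < (2 ^ n) ^ 7 := Nat.pow_lt_pow_left h4 (by norm_num)
      _ = 2 ^ (n * 7) := by rw [pow_mul]
      _ ≤ 2 ^ (6 * n + 19) := Nat.pow_le_pow_right (by norm_num) (by omega)

end Pool.Agent.helper65.QG
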