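import Pool.Agent.helper65.QG.Local

/-!
# Geometric points of `S_2[2,3,n]`: the operators `M = T_a + T_b`
-/

set_option autoImplicit false

namespace Pool.Agent.helper65.QG

open Submodule Module Pool.Agent.helper25.QST

variable {V : Type} [AddCommGroup V] [Module (ZMod 2) V]

/-! ## Dimensions -/

theorem finrank_comap_le [Finite V] (f : V →ₗ[ZMod 2] V) (N : Submodule (ZMod 2) V) :
    finrank (ZMod 2) (N.comap f) ≤ finrank (ZMod 2) N + finrank (ZMod 2) (LinearMap.ker f) := by
  let g : N.comap f →ₗ[ZMod 2] N := f.restrict (fun x hx => hx)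
  have h1 := LinearMap.finrank_range_add_finrank_ker g
  have h2 : finrank (ZMod 2) (LinearMap.range g) ≤ finrank (ZMod 2) N := Submodule.finrank_le _
  have h3 : finrank (ZMod 2) (LinearMap.ker g) ≤ finrank (ZMod 2) (LinearMap.ker f) := by
    let j : LinearMap.ker g →ₗ[ZMod 2] LinearMap.ker f :=
      ((N.comap f).subtype.comp (LinearMap.ker g).subtype).codRestrict _ (fun x => by
        have hx : g (x : N.comap f) = 0 := x.2
        have hx' : f ((x : N.comap f) : V) = 0 := congrArg Subtype.val hx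
        exact hx')
    refine LinearMap.finrank_le_finrank_of_injective (f := j) ?_
    intro x y hxy
    have h4 : ((x : N.comap f) : V) = ((y : N.comap f) : V) := congrArg (fun t : LinearMap.ker f => (t : V)) hxy
    exact Subtype.ext (Subtype.ext h4)
  omega

theorem finrank_comap_ge [Finite V] (f : V →ₗ[ZMod 2] V) (N : Submodule (ZMod 2) V) :
    finrank (ZMod 2) N ≤ finrank (ZMod 2) (N.comap f) := by
  have h1 := LinearMap.finrank_range_add_finrank_ker (N.mkQ.comp f)
  have h2 : finrank (ZMod 2) (LinearMap.range (N.mkQ.comp f)) ≤ finrank (ZMod 2) (V ⧸ N) :=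
    Submodule.finrank_le _
  have h3 := Submodule.finrank_quotient_add_finrank N
  have h4 : LinearMap.ker (N.mkQ.comp f) = N.comap f := by
    rw [LinearMap.ker_comp, Submodule.ker_mkQ]
  rw [h4] at h1
  omega

theorem card_pow (N : Submodule (ZMod 2) V) [Finite N] : Nat.card N = 2 ^ finrank (ZMod 2) N := by
  rw [Module.natCard_eq_pow_finrank (K := ZMod 2), Nat.card_zmod]

variable {𝓑 : Set (Submodule (ZMod 2) V)}

/-- every `w` with `T_a w + T_b w + e w` in the line through `a`, `b` is in the block through `a`, `b` -/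
theorem small_ker (h : IsQSteiner 𝓑) {a b : V} {X Y : V →ₗ[ZMod 2] V} (hX : Lift 𝓑 a X) (hY : Lift 𝓑 b Y)
    (hab : a ≠ b) {B : Submodule (ZMod 2) V} (hB : B ∈ 𝓑) (haB : a ∈ B) (hbB : b ∈ B) (e : ZMod 2) {w : V}
    (hw : X w + Y w + e • w ∈ span (ZMod 2) {a, b}) : w ∈ B := by
  by_contra hwB
  have hw0 : w ≠ 0 := fun e0 => hwB (e0 ▸ B.zero_mem)
  have haw : a ≠ w := fun e0 => hwB (e0 ▸ haB)
  have hbw : b ≠ w := fun e0 => hwB (e0 ▸ hbB)
  obtain ⟨α, β, hαβ⟩ := Submodule.mem_span_pair.1 hw
  have hv : X w + α • a = Y w + e • w + β • b := by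
    apply eq_of_add
    have e1 : Y w + e • w = (α • a + β • b) - X w := by
      rw [hαβ]
      abel
    rw [e1]
    abel_nf
    simp only [zz2, add_zero]
  obtain ⟨C, hC, haC, hwC⟩ := Pool.Agent.helper25.QST.blk h hX.ne hw0 haw
  obtain ⟨C', hC', hbC', hwC'⟩ := Pool.Agent.helper25.QST.blk h hY.ne hw0 hbw
  have h1 : X w + α • a ∈ C := C.add_mem (hX.blk C hC haC w hwC) (C.smul_mem _ haC)
  have h2 : X w + α • a ∈ C' := by
    rw [hv]
    exact C'.add_mem (C'.add_mem (hY.blk C' hC' hbC' w hwC') (C'.smul_mem _ hwC')) (C'.smul_mem _ hbC')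
  have hn : X w ∉ span (ZMod 2) {a, w} := hX.nline (nin hw0 haw)
  have ham : α • a ∈ span (ZMod 2) {a, w} := Submodule.smul_mem _ _ (subset_span (by simp))
  have h3 : X w + α • a ≠ 0 := fun e0 => hn (mem_of ham e0)
  have h4 : X w + α • a ≠ w := by
    intro e0
    apply hn
    have e2 : X w = w - α • a := eq_sub_of_add_eq e0
    rw [e2]
    exact sub_mem (subset_span (by simp)) ham
  have h5 : C = C' := blk_unique h hC hC' h3 hw0 h4 h1 hwC h2 hwC'
  rw [← h5] at hbC'
  have h6 : C = B := blk_unique h hC hB hX.ne hY.ne hab haC hbC' haB hbB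
  exact hwB (h6 ▸ hwC)

/-- the pre-image of the block under a product of two of the maps `M`, `M + 1` has dimension at most nine -/
theorem small_prod [Finite V] (h : IsQSteiner 𝓑) {a b : V} {X Y : V →ₗ[ZMod 2] V} (hX : Lift 𝓑 a X)
    (hY : Lift 𝓑 b Y) (hab : a ≠ b) {B : Submodule (ZMod 2) V} (hB : B ∈ 𝓑) (haB : a ∈ B) (hbB : b ∈ B)
    (e e' : ZMod 2) :
    finrank (ZMod 2) ((B.comap (X + Y + e • LinearMap.id)).comap (X + Y + e' • LinearMap.id)) ≤ 9 := by
  have hk : ∀ e : ZMod 2, finrank (ZMod 2) (LinearMap.ker (X + Y + e • LinearMap.id)) ≤ 3 := by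
    intro e
    have h1 : LinearMap.ker (X + Y + e • LinearMap.id) ≤ B := by
      intro w hw
      refine small_ker h hX hY hab hB haB hbB e (w := w) ?_
      have h2 : X w + Y w + e • w = 0 := hw
      rw [h2]
      exact zero_mem _
    have h3 := Submodule.finrank_mono h1
    rw [h.dim B hB] at h3
    exact h3
  have h1 := finrank_comap_le (X + Y + e' • LinearMap.id) (B.comap (X + Y + e • LinearMap.id))
  have h2 := finrank_comap_le (X + Y + e • LinearMap.id) B
  have h3 := hk e
  have h4 := hk e'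
  rw [h.dim B hB] at h2
  omega

/-- the pre-image of the block under `M² + M + 1` has at most half of the dimension -/
theorem small_quad [Finite V] (h : IsQSteiner 𝓑) {a b : V} {X Y : V →ₗ[ZMod 2] V} (hX : Lift 𝓑 a X)
    (hY : Lift 𝓑 b Y) {B : Submodule (ZMod 2) V} (hB : B ∈ 𝓑) (haB : a ∈ B) (hbB : b ∈ B) :
    2 * finrank (ZMod 2) (B.comap ((X + Y).comp (X + Y) + (X + Y) + LinearMap.id)) ≤
      finrank (ZMod 2) V + 3 := by
  set K : Submodule (ZMod 2) V := B.comap ((X + Y).comp (X + Y) + (X + Y) + LinearMap.id) with hK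
  have hBX : ∀ x ∈ B, X x ∈ B := hX.blk B hB haB
  have hBY : ∀ x ∈ B, Y x ∈ B := hY.blk B hB hbB
  have hsa : ∀ x, X (X x) + X x + x ∈ B := fun x => by
    have h1 : span (ZMod 2) {a} ≤ B := by
      rw [span_le, Set.singleton_subset_iff]
      exact haB
    exact h1 (hX.sq x)
  have hsb : ∀ x, Y (Y x) + Y x + x ∈ B := fun x => by
    have h1 : span (ZMod 2) {b} ≤ B := by
      rw [span_le, Set.singleton_subset_iff]
      exact hbB
    exact h1 (hY.sq x)
  -- the condition in terms of the anticommutator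
  have hC : ∀ x ∈ K, X (Y x) + Y (X x) + x ∈ B := by
    intro x hx
    have h1 : X (X x) + Y (X x) + (X (Y x) + Y (Y x)) + (X x + Y x) + x ∈ B := by
      have h2 : ((X + Y).comp (X + Y) + (X + Y) + LinearMap.id : V →ₗ[ZMod 2] V) x ∈ B := hx
      simpa only [LinearMap.add_apply, LinearMap.comp_apply, map_add, LinearMap.id_apply, add_assoc,
        add_left_comm] using h2
    refine mem_of (v := (X (X x) + Y (X x) + (X (Y x) + Y (Y x)) + (X x + Y x) + x) +
      ((X (X x) + X x + x) + (Y (Y x) + Y x + x))) (B.add_mem h1 (B.add_mem (hsa x) (hsb x))) ?_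
    abel_nf
    simp only [zz2, zz4, zz3, add_zero, zero_add]
  have hinf : K ⊓ K.comap X ≤ B := by
    rintro x ⟨hx, hXx⟩
    have h1 := hC x hx
    have h2 : X (Y (X x)) + Y (X (X x)) + X x ∈ B := hC (X x) hXx
    have h3 : X (X (Y x)) + X (Y (X x)) + X x ∈ B := by
      have := hBX _ h1
      simpa only [map_add] using this
    have h4 := hsa (Y x)
    have h5 : Y (X (X x)) + Y (X x) + Y x ∈ B := by
      have := hBY _ (hsa x)
      simpa only [map_add] using this
    refine mem_of (v := (X (Y x) + Y (X x) + x) + (X (Y (X x)) + Y (X (X x)) + X x) +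
      (X (X (Y x)) + X (Y (X x)) + X x) + (X (X (Y x)) + X (Y x) + Y x) + (Y (X (X x)) + Y (X x) + Y x))
      (B.add_mem (B.add_mem (B.add_mem (B.add_mem h1 h2) h3) h4) h5) ?_
    abel_nf
    simp only [zz2, zz4, zz3, add_zero, zero_add]
  have h1 := Submodule.finrank_sup_add_finrank_inf_eq K (K.comap X)
  have h2 := Submodule.finrank_mono hinf
  rw [h.dim B hB] at h2
  have h3 := finrank_comap_ge X K
  have h4 := Submodule.finrank_le (K ⊔ K.comap X)
  omega

end Pool.Agent.helper65.QG
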