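import Pool.Agent.helper31.GPR.Spec
import Pool.Agent.helper65.QG.Ops

/-!
# Geometric points of `S_2[2,3,n]`: the essential span
-/

set_option autoImplicit false

namespace Pool.Agent.helper65.QG

open Submodule Module Pool.Agent.helper25.QST Pool.Agent.GPR

theorem card_sub {V : Type} [AddCommGroup V] [Module (ZMod 2) V] [Finite V] (N : Submodule (ZMod 2) V) :
    (N : Set V).ncard = 2 ^ finrank (ZMod 2) N := by
  rw [← card_pow N]
  exact (Nat.card_coe_set_eq (N : Set V)).symm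

/-- one of the two subspaces contains nearly all elements of `S` -/
theorem dic2 {V : Type} [AddCommGroup V] [Module (ZMod 2) V] [Finite V] (n k : ℕ) (S : Set V) (N : V →ₗ[ZMod 2] V)
    (X : Submodule (ZMod 2) V) (hn : finrank (ZMod 2) V = n) (hX : finrank (ZMod 2) X ≤ 3) (h0 : (0 : V) ∉ S)
    (hS : 2 ^ (n - k) ≤ S.ncard) (hN : ∀ w ∈ S, N w ∈ X ⊔ Submodule.span (ZMod 2) {w}) :
    ∃ e : ZMod 2, (S \ {v | N v + e • v ∈ X}).ncard ≤ 2 ^ (k + 3) := by
  classical
  let E : ZMod 2 → Submodule (ZMod 2) V := fun e => X.comap (N + e • LinearMap.id)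
  have hE : ∀ e v, v ∈ E e ↔ N v + e • v ∈ X := fun e v => Iff.rfl
  have hcov : S ⊆ (E 0 : Set V) ∪ (E 1 : Set V) := by
    intro w hw
    obtain ⟨u, hu, v, hv, huv⟩ := Submodule.mem_sup.1 (hN w hw)
    rcases mem_sp.1 hv with e | e
    · left
      show w ∈ E 0
      rw [hE, zero_smul, add_zero, ← huv, e, add_zero]
      exact hu
    · right
      show w ∈ E 1
      rw [hE, one_smul, ← huv, e, add_assoc, dbl, add_zero]
      exact hu
  have hinf : E 0 ⊓ E 1 ≤ X := by
    rintro w ⟨h1, h2⟩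
    have h1' : N w + (0 : ZMod 2) • w ∈ X := h1
    have h2' : N w + (1 : ZMod 2) • w ∈ X := h2
    rw [zero_smul, add_zero] at h1'
    rw [one_smul] at h2'
    refine mem_of (v := N w + (N w + w)) (X.add_mem h1' h2') ?_
    abel_nf
    simp only [zz2, add_zero]
  have hdim : finrank (ZMod 2) (E 0) + finrank (ZMod 2) (E 1) ≤ n + 3 := by
    have h1 := Submodule.finrank_sup_add_finrank_inf_eq (E 0) (E 1)
    have h2 := Submodule.finrank_mono hinf
    have h3 := Submodule.finrank_le (E 0 ⊔ E 1)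
    omega
  have hbig : n - k ≤ finrank (ZMod 2) (E 0) ∨ n - k ≤ finrank (ZMod 2) (E 1) := by
    by_contra hc
    push Not at hc
    obtain ⟨hc0, hc1⟩ := hc
    have h1 : S ⊆ ((E 0 : Set V) \ {0}) ∪ ((E 1 : Set V) \ {0}) := by
      intro w hw
      have hw0 : w ≠ 0 := fun e => h0 (e ▸ hw)
      rcases hcov hw with h | h
      · exact Or.inl ⟨h, hw0⟩
      · exact Or.inr ⟨h, hw0⟩
    have h2 : S.ncard ≤ ((E 0 : Set V) \ {0}).ncard + ((E 1 : Set V) \ {0}).ncard :=
      (Set.ncard_le_ncard h1 (Set.toFinite _)).trans (Set.ncard_union_le _ _)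
    rw [Set.ncard_sdiff_singleton_of_mem (E 0).zero_mem, Set.ncard_sdiff_singleton_of_mem (E 1).zero_mem,
      card_sub, card_sub] at h2
    have h3 : 2 ^ finrank (ZMod 2) (E 0) ≤ 2 ^ (n - k - 1) := Nat.pow_le_pow_right (by norm_num) (by omega)
    have h4 : 2 ^ finrank (ZMod 2) (E 1) ≤ 2 ^ (n - k - 1) := Nat.pow_le_pow_right (by norm_num) (by omega)
    have h5 : 2 ^ (n - k) = 2 * 2 ^ (n - k - 1) := by
      rw [← pow_succ']
      congr 1
      omega
    have h6 : 0 < 2 ^ finrank (ZMod 2) (E 0) := by positivity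
    omega
  have hfin : ∀ e e' : ZMod 2, S ⊆ (E e : Set V) ∪ (E e' : Set V) → n - k ≤ finrank (ZMod 2) (E e) →
      finrank (ZMod 2) (E e) + finrank (ZMod 2) (E e') ≤ n + 3 → finrank (ZMod 2) (E e') ≤ k + 3 →
      (S \ {v | N v + e • v ∈ X}).ncard ≤ 2 ^ (k + 3) := by
    intro e e' h1 h2 h3 h4
    have h5 : S \ {v | N v + e • v ∈ X} ⊆ (E e' : Set V) := by
      rintro w ⟨hw, hwn⟩
      rcases h1 hw with h | h
      · exact absurd ((hE e w).1 h) hwn
      · exact h
    calc (S \ {v | N v + e • v ∈ X}).ncard ≤ (E e' : Set V).ncard := Set.ncard_le_ncard h5 (Set.toFinite _)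
      _ = 2 ^ finrank (ZMod 2) (E e') := card_sub _
      _ ≤ 2 ^ (k + 3) := Nat.pow_le_pow_right (by norm_num) h4
  rcases hbig with hb | hb
  · exact ⟨0, hfin 0 1 hcov hb hdim (by omega)⟩
  · exact ⟨1, hfin 1 0 (by rw [Set.union_comm]; exact hcov) hb (by omega) (by omega)⟩

theorem sub_lc {V : Type} [AddCommGroup V] [Module (ZMod 2) V] {S T : Set V} {J : V → V →ₗ[ZMod 2] V}
    (h : Lc S J) (hT : T ⊆ S) : Lc T J where
  nz := fun h0 => h.nz (hT h0)
  self := fun x hx => h.self x (hT hx)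
  quad := fun x hx v => h.quad x (hT hx) v
  sym := fun x hx y hy => h.sym x (hT hx) y (hT hy)
  ker := fun x hx y hy hxy e => h.ker x (hT hx) y (hT hy) hxy e

theorem fin3 {V : Type} [AddCommGroup V] [Module (ZMod 2) V] (x y z : V) :
    Module.finrank (ZMod 2) (Submodule.span (ZMod 2) ({x, y, z} : Set V)) ≤ 3 := by
  classical
  have h := finrank_span_finset_le_card (R := ZMod 2) ({x, y, z} : Finset V)
  have h3 : ({x, y, z} : Finset V).card ≤ 3 := Finset.card_le_three
  have he : ((({x, y, z} : Finset V) : Set V)) = ({x, y, z} : Set V) := by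
    simp
  unfold Set.finrank at h
  rw [he] at h
  exact le_trans h h3

/-- the essential span `V1` of `S` -/
theorem sub2 (hFOU : FOU_stmt) {V : Type} [AddCommGroup V] [Module (ZMod 2) V] [Finite V] (n k : ℕ) (S : Set V)
    (J : V → V →ₗ[ZMod 2] V) (hn : finrank (ZMod 2) V = n) (hLc : Lc S J) (hS : 2 ^ (n - k) ≤ S.ncard)
    (hbig : n * 2 ^ (k + 3) < 2 ^ (n - k - 1)) (hkn : k + 1 ≤ n) :
    ∃ V1 : Submodule (ZMod 2) V, Amb (S ∩ V1) J V1 ∧
      2 ^ (n - k) ≤ (S ∩ (V1 : Set V)).ncard + k * 2 ^ (k + 3) ∧ n ≤ finrank (ZMod 2) V1 + k := by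
  classical
  have hex : ∃ d, ∃ V' : Submodule (ZMod 2) V, finrank (ZMod 2) V' = d ∧
      (S \ (V' : Set V)).ncard ≤ (n - d) * 2 ^ (k + 3) := by
    refine ⟨n, ⊤, ?_, ?_⟩
    · rw [finrank_top]; exact hn
    · simp
  obtain ⟨V1, hd, hV1⟩ := Nat.find_spec hex
  have hmin := fun m (hm : m < Nat.find hex) => Nat.find_min hex hm
  generalize Nat.find hex = d at hd hV1 hmin
  have hdn : d ≤ n := by
    rw [← hd, ← hn]; exact Submodule.finrank_le V1
  have hsub : ∀ x ∈ S ∩ (V1 : Set V), ∀ y ∈ S ∩ (V1 : Set V), ∀ z ∈ S ∩ (V1 : Set V),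
      x + y + z ∈ S ∩ (V1 : Set V) → ∃ e : ZMod 2, ∀ v ∈ V1,
      (J x + J y + J z + J (x + y + z)) v + e • v ∈ Submodule.span (ZMod 2) {x, y, z} := by
    intro x hx y hy z hz hxyz
    obtain ⟨e, he⟩ := dic2 n k S (J x + J y + J z + J (x + y + z))
      (Submodule.span (ZMod 2) {x, y, z}) hn (fin3 x y z) hLc.nz hS
      (fun w hw => hFOU V S J hLc x hx.1 y hy.1 z hz.1 hxyz.1 w hw)
    refine ⟨e, ?_⟩
    let E : Submodule (ZMod 2) V := (Submodule.span (ZMod 2) {x, y, z}).comap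
      ((J x + J y + J z + J (x + y + z)) + e • (LinearMap.id : V →ₗ[ZMod 2] V))
    have hE : ∀ v, v ∈ E ↔ (J x + J y + J z + J (x + y + z)) v + e • v ∈
        Submodule.span (ZMod 2) {x, y, z} := by
      intro v
      simp [E, Submodule.mem_comap]
    by_contra hcon
    have hnle : ¬ V1 ≤ E := by
      intro hle
      apply hcon
      intro v hv
      exact (hE v).1 (hle hv)
    have hlt : V1 ⊓ E < V1 := by
      refine lt_of_le_of_ne inf_le_left ?_
      intro heq
      exact hnle (inf_eq_left.1 heq)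
    have hfr : finrank (ZMod 2) (V1 ⊓ E : Submodule (ZMod 2) V) < d := by
      rw [← hd]; exact Submodule.finrank_lt_finrank_of_lt hlt
    apply hmin _ hfr
    refine ⟨V1 ⊓ E, rfl, ?_⟩
    have hsubset : S \ ((V1 ⊓ E : Submodule (ZMod 2) V) : Set V) ⊆
        (S \ (V1 : Set V)) ∪ (S \ {v | (J x + J y + J z + J (x + y + z)) v + e • v ∈
          Submodule.span (ZMod 2) {x, y, z}}) := by
      intro w hw
      by_cases hwV : w ∈ (V1 : Set V)
      · right
        refine ⟨hw.1, ?_⟩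
        intro hwE
        apply hw.2
        exact ⟨hwV, (hE w).2 hwE⟩
      · left; exact ⟨hw.1, hwV⟩
    have h1 := Set.ncard_le_ncard hsubset (Set.toFinite _)
    have h2 := Set.ncard_union_le (S \ (V1 : Set V)) (S \ {v | (J x + J y + J z + J (x + y + z)) v + e • v ∈
          Submodule.span (ZMod 2) {x, y, z}})
    have h3 : (n - d) * 2 ^ (k + 3) + 2 ^ (k + 3) ≤
        (n - finrank (ZMod 2) (V1 ⊓ E : Submodule (ZMod 2) V)) * 2 ^ (k + 3) := by
      have : (n - d) * 2 ^ (k + 3) + 2 ^ (k + 3) = (n - d + 1) * 2 ^ (k + 3) := by ring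
      rw [this]
      apply Nat.mul_le_mul_right
      omega
    omega
  have hsum := Set.ncard_inter_add_ncard_sdiff_eq_ncard S (V1 : Set V) (Set.toFinite S)
  have hc5 : (S ∩ (V1 : Set V)).ncard ≤ 2 ^ d := by
    rw [← hd, ← card_sub]
    exact Set.ncard_le_ncard Set.inter_subset_right (Set.toFinite _)
  have hck : n ≤ d + k := by
    by_contra hc
    push Not at hc
    have h1 : 2 ^ d ≤ 2 ^ (n - k - 1) := Nat.pow_le_pow_right (by norm_num) (by omega)
    have h2 : (n - d) * 2 ^ (k + 3) ≤ n * 2 ^ (k + 3) := Nat.mul_le_mul_right _ (by omega)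
    have h3 : 2 ^ (n - k) = 2 * 2 ^ (n - k - 1) := by
      rw [← pow_succ']
      congr 1
      omega
    omega
  refine ⟨V1, ⟨sub_lc hLc Set.inter_subset_left, fun x hx => hx.2, hsub⟩, ?_, ?_⟩
  · have h1 : (n - d) * 2 ^ (k + 3) ≤ k * 2 ^ (k + 3) := Nat.mul_le_mul_right _ (by omega)
    omega
  · rw [hd]
    exact hck

end Pool.Agent.helper65.QG
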